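import Pool.Agent.helper12.TY.Spec

/-!
# Row ty:Y2B (MP_baa4d7_al): the sums over the subgroups of the quotient with a given intersection with `W`
-/

set_option autoImplicit false

namespace Pool.Agent.TY

open Pool.Agent.helper58.DC Pool.Agent.DI Pool.Agent.GR Pool.Agent.OB Pool.Agent.TZ

theorem Y2B_swap {ι : Type} [Finite ι] (f : ℤ → ι → ℤ) (hf : ∀ i, {d | f d i ≠ 0}.Finite) :
    ∑ᶠ d, ∑ᶠ i, f d i = ∑ᶠ i, ∑ᶠ d, f d i := by
  have : Fintype ι := Fintype.ofFinite ι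
  have h1 : ∀ d, ∑ᶠ i, f d i = ∑ i, f d i := fun d => finsum_eq_sum_of_fintype _
  have h2 : ∑ᶠ i, ∑ᶠ d, f d i = ∑ i, ∑ᶠ d, f d i := finsum_eq_sum_of_fintype _
  rw [finsum_congr h1, h2]
  exact finsum_sum_comm Finset.univ (fun d i => f d i) (fun i _ => hf i)

theorem Y2B_index {A : Type} [Group A] (W C U : Subgroup A)
    (hn : ∀ w ∈ W, ∀ c ∈ C, w * c * w⁻¹ ∈ C) (hU : U ≤ W) : C.relIndex U ∣ C.relIndex W := by
  have hN : (C.subgroupOf W).Normal := by
    constructor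
    intro c hc w
    rw [Subgroup.mem_subgroupOf] at hc ⊢
    exact hn w.1 w.2 c.1 hc
  have h1 : (C.subgroupOf W).relIndex (U.subgroupOf W ⊔ C.subgroupOf W) = (C.subgroupOf W).relIndex (U.subgroupOf W) :=
    Subgroup.relIndex_sup_right _ _
  have h2 : (C.subgroupOf W).relIndex (U.subgroupOf W) = C.relIndex U := Subgroup.relIndex_subgroupOf hU
  have h3 := Subgroup.relIndex_mul_index (H := C.subgroupOf W) (K := U.subgroupOf W ⊔ C.subgroupOf W) le_sup_right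
  rw [h1, h2] at h3
  exact ⟨_, h3.symm⟩

theorem Y2B_congr {A : Type} [Group A] (T : Subgroup A → ℤ) (Q Q' : Subgroup A → Prop)
    (h : ∀ V, T V ≠ 0 → (Q V ↔ Q' V)) :
    ∑ᶠ V : {V : Subgroup A // Q V}, T V.1 = ∑ᶠ V : {V : Subgroup A // Q' V}, T V.1 := by
  have e1 : ∑ᶠ V : {V : Subgroup A // Q V}, T V.1 = ∑ᶠ (V : Subgroup A) (_ : Q V), T V :=
    finsum_subtype_eq_finsum_cond (f := T) Q
  have e2 : ∑ᶠ V : {V : Subgroup A // Q' V}, T V.1 = ∑ᶠ (V : Subgroup A) (_ : Q' V), T V :=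
    finsum_subtype_eq_finsum_cond (f := T) Q'
  rw [e1, e2]
  apply finsum_congr
  intro V
  by_cases hV : T V = 0
  · simp [hV]
  · have h1 := h V hV
    by_cases hQ : Q V
    · have hQ' := h1.1 hQ
      simp [hQ, hQ']
    · have hQ' : ¬ Q' V := fun h2 => hQ (h1.2 h2)
      simp [hQ, hQ']

open scoped Pointwise in
/-- elements of `zpowers s ⊔ K`, `K` normalised by `s` -/
theorem Y2B_sup {A : Type} [Group A] (K : Subgroup A) (s y : A) (h1 : ∀ k ∈ K, s * k * s⁻¹ ∈ K)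
    (h2 : ∀ k ∈ K, s⁻¹ * k * s ∈ K) (hy : y ∈ Subgroup.zpowers s ⊔ K) :
    ∃ a ∈ Subgroup.zpowers s, ∃ n ∈ K, y = a * n := by
  have hle : Subgroup.zpowers s ≤ Subgroup.normalizer (K : Set A) := by
    rw [Subgroup.zpowers_le, Subgroup.mem_normalizer_iff]
    intro k
    constructor
    · intro hk
      exact h1 k hk
    · intro hk
      have h3 := h2 _ hk
      have h4 : s⁻¹ * (s * k * s⁻¹) * s = k := by group
      rwa [h4] at h3
  have h5 := Subgroup.coe_mul_of_left_le_normalizer_right (Subgroup.zpowers s) K hle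
  have h6 : y ∈ ((Subgroup.zpowers s : Set A) * (K : Set A)) := by
    rw [← h5]
    exact hy
  obtain ⟨a, ha, n, hn, hy⟩ := Set.mem_mul.1 h6
  exact ⟨a, ha, n, hn, hy.symm⟩

theorem Y2B (hY2A : Y2A_stmt) (hYFR : YFR_stmt) (hYJD : YJD_stmt) (hIMW : Pool.Agent.TZ.IMW_stmt)
    (hRE : RE_stmt) (hFN : FN_stmt) : Y2B_stmt := by
  intro p c M hS G E A _ _ _ _ _ X hO χ hχ L N hNL hNn hFx hL D x hD z hz hzc hzn W C hCW hWC hCn hCi s hs hCs hps hJ
    U hU
  have hA : Finite A := Finite.of_surjective X.proj X.proj_surjective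
  have hpp : Fact p.Prime := ⟨hS.1⟩
  have hfin : ∀ V : Subgroup A, {d : ℤ | altSum X p M χ d V ≠ 0}.Finite := hFN G E A X p M χ
  rw [Y2B_swap (fun d (V : {V : Subgroup A // V ⊓ W = U}) => altSum X p M χ d V.1) (fun V => hfin V.1)]
  refine hIMW p A (fun V => ∑ᶠ d : ℤ, altSum X p M χ d V) W ?_ U hU
  intro U0 hU0
  by_cases hUL : U0 ≤ L
  swap
  · have h0 : ∀ V : {V : Subgroup A // U0 ≤ V}, ∑ᶠ d : ℤ, altSum X p M χ d V.1 = 0 := by
      intro V
      have h1 : ∀ d : ℤ, altSum X p M χ d V.1 = 0 := fun d => hL d V.1 (fun h2 => hUL (V.2.trans h2))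
      rw [finsum_congr h1, finsum_zero]
    rw [finsum_congr h0, finsum_zero]
    exact dvd_zero _
  have hFr := hYFR G E A X p M χ N hFx
  let U' : Subgroup A := U0 ⊔ (W ⊓ N)
  have hU'W : U' ≤ W ⊓ L :=
    sup_le (le_inf hU0 hUL) (le_inf inf_le_left (inf_le_right.trans hNL))
  have e0 : ∑ᶠ V : {V : Subgroup A // U0 ≤ V}, ∑ᶠ d : ℤ, altSum X p M χ d V.1 =
      ∑ᶠ V : {V : Subgroup A // U' ≤ V}, ∑ᶠ d : ℤ, altSum X p M χ d V.1 := by
    apply Y2B_congr (fun V => ∑ᶠ d : ℤ, altSum X p M χ d V) (fun V => U0 ≤ V) (fun V => U' ≤ V)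
    intro V hV
    constructor
    · intro h1
      refine sup_le h1 (inf_le_right.trans ?_)
      by_contra h2
      apply hV
      have h3 : ∀ d : ℤ, altSum X p M χ d V = 0 := fun d => hFr.2 d V h2
      show ∑ᶠ d : ℤ, altSum X p M χ d V = 0
      rw [finsum_congr h3, finsum_zero]
    · intro h1
      exact le_sup_left.trans h1
  have h1 := Y2B_swap (fun d (V : {V : Subgroup A // U' ≤ V}) => altSum X p M χ d V.1) (fun V => hfin V.1)
  have h2 : ∑ᶠ d : ℤ, ∑ᶠ V : {V : Subgroup A // U' ≤ V}, altSum X p M χ d V.1 =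
      ∑ᶠ d : ℤ, altSum (resE X U') p M χ d ⊤ :=
    finsum_congr fun d => (hRE G E A X p M χ hχ d U').symm
  have h3 : ∑ᶠ V : {V : Subgroup A // U' ≤ V}, ∑ᶠ d : ℤ, altSum X p M χ d V.1 = aS (resE X U') p M χ ⊤ := by
    show _ = ∑ᶠ d : ℤ, altSum (resE X U') p M χ d ⊤
    rw [← h2]
    exact h1.symm
  show (p : ℤ) ∣ ∑ᶠ V : {V : Subgroup A // U0 ≤ V}, ∑ᶠ d : ℤ, altSum X p M χ d V.1
  rw [e0, h3]
  have hN : (C.subgroupOf U').Normal := by
    constructor
    intro c hc w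
    rw [Subgroup.mem_subgroupOf] at hc ⊢
    exact hCn w.1 (hU'W w.2) c.1 hc
  have hidx : ∃ k : ℕ, (C.subgroupOf U').index = p ^ k := by
    obtain ⟨k, hk⟩ := hCi
    have hd : C.relIndex U' ∣ p ^ k := hk ▸ Y2B_index (W ⊓ L) C U' hCn hU'W
    obtain ⟨j, -, hj⟩ := (Nat.dvd_prime_pow hpp.out).mp hd
    exact ⟨j, hj⟩
  -- the generator of `zpowers s ⊓ U'`
  let Z : Subgroup U' := (Subgroup.zpowers s).subgroupOf U'
  let f : Z →* Subgroup.zpowers s :=
    { toFun := fun c => ⟨c.1.1, c.2⟩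
      map_one' := rfl
      map_mul' := fun _ _ => rfl }
  have hf : Function.Injective f := by
    intro a b hab
    apply Subtype.ext
    apply Subtype.ext
    exact congrArg (fun c : Subgroup.zpowers s => c.1) hab
  have hcyc : IsCyclic Z := isCyclic_of_injective f hf
  obtain ⟨g, hg⟩ := hcyc.exists_generator
  have hg1 : (g.1 : A) ∈ Subgroup.zpowers s := g.2
  have hZ : ∀ y : U', (y : A) ∈ Subgroup.zpowers s → y ∈ Subgroup.zpowers g.1 := by
    intro y hy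
    obtain ⟨k, hk⟩ := Subgroup.mem_zpowers_iff.1 (hg ⟨y, hy⟩)
    rw [Subgroup.mem_zpowers_iff]
    refine ⟨k, ?_⟩
    have h4 := congrArg (fun c : Z => (c : U')) hk
    exact h4
  have hord : orderOf g.1 ∣ orderOf s := by
    have h4 : orderOf (g.1 : A) = orderOf g.1 := Subgroup.orderOf_coe _
    rw [← h4]
    exact orderOf_dvd_of_mem_zpowers hg1
  have hsW : s ∈ W := (hCW hs).1
  have hsL : s ∈ L := (hCW hs).2
  refine hY2A p c M hS G _ U' (resE X U') (C.subgroupOf U') (N.subgroupOf U') hidx g.1 ?_ ?_ ?_ ?_ hO χ hχ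
    (hFr.1 U') D x hD z hz hzc hzn
  · rw [Subgroup.mem_subgroupOf]
    exact (Subgroup.zpowers_le.2 hs) hg1
  · intro y hy
    rw [Subgroup.mem_subgroupOf] at hy
    obtain ⟨a, ha, n, hn, hyan⟩ := Y2B_sup (W ⊓ N) s y.1
      (fun k hk => ⟨W.mul_mem (W.mul_mem hsW hk.1) (W.inv_mem hsW), hNn s hsL k hk.2⟩)
      (fun k hk => ⟨W.mul_mem (W.mul_mem (W.inv_mem hsW) hk.1) hsW, by
        have h4 := hNn s⁻¹ (L.inv_mem hsL) k hk.2
        rwa [inv_inv] at h4⟩) (hCs hy)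
    have hnU : n ∈ U' := (le_sup_right : W ⊓ N ≤ U') hn
    have haU : a ∈ U' := by
      have h4 : a = y.1 * n⁻¹ := by rw [hyan]; group
      rw [h4]
      exact U'.mul_mem y.2 (U'.inv_mem hnU)
    have h5 : y = (⟨a, haU⟩ : U') * ⟨n, hnU⟩ := Subtype.ext hyan
    rw [h5]
    refine Subgroup.mul_mem_sup (hZ _ ha) ?_
    rw [Subgroup.mem_subgroupOf]
    exact hn.2
  · intro h4
    exact hps (h4.trans hord)
  · intro h4
    exact hJ (h4.trans (hYJD _ _ (orderOf_pos s).ne' hord))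

end Pool.Agent.TY
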